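import Pool.Agent.Lib.MP_d48993_lc.Main

/-!
# A cut in the Muchnik degrees of `Π⁰₁` classes, in Cantor space and in Baire space at once
-/

set_option autoImplicit false

namespace Pool.Agent.Results.MP_d48993_lc.CutInBothLattices

open Pool.Agent.Lib.MP_d48993_lc

/-- `a < c ≤ d < b`, and every element between `a` and `b` is above `c` or below `d`. -/
def IsCut {α : Type} [PartialOrder α] (a c d b : α) : Prop :=
  a < c ∧ c ≤ d ∧ d < b ∧ ∀ z, a ≤ z → z ≤ b → c ≤ z ∨ z ≤ d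

/-- The Muchnik degree of a `Π⁰₁` class of Cantor space, in `𝒫_w(2^ω)`. -/
def cantorDeg (P : CantorPi) : PwCantor := toAntisymmetrization (· ≤ ·) P

/-- A `Π⁰₁` class of Cantor space, as a `Π⁰₁` class of Baire space. -/
def toBaire (P : CantorPi) : BairePi :=
  ⟨P.1, P.2.1, P.2.2.imp fun _ h => ⟨h.1, h.2.2⟩⟩

/-- The Muchnik degree of a `Π⁰₁` class of Cantor space, in `𝒫_w(ω^ω)`. -/
def baireDeg (P : CantorPi) : PwBaire := toAntisymmetrization (· ≤ ·) (toBaire P)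

theorem result : ∃ A C D B : CantorPi,
    IsCut (cantorDeg A) (cantorDeg C) (cantorDeg D) (cantorDeg B) ∧
    IsCut (baireDeg A) (baireDeg C) (baireDeg D) (baireDeg B) := by
  obtain ⟨D⟩ := data
  have mk : ∀ P : Set (ℕ → ℕ), P.Nonempty ∧ ClosedC P ∧ Bin P → IsPi01Cantor P :=
    fun P hP => (cls.2 P).2 hP
  refine ⟨⟨D.a, mk _ D.ha⟩, ⟨D.c, mk _ D.hc⟩, ⟨D.d, mk _ D.hd⟩, ⟨D.b, mk _ D.hb⟩,
    ⟨?_, ?_, ?_, ?_⟩, ⟨?_, ?_, ?_, ?_⟩⟩
  · exact lt_iff_le_not_ge.2 ⟨D.ac, D.nca⟩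
  · exact D.cd
  · exact lt_iff_le_not_ge.2 ⟨D.db, D.nbd⟩
  · intro z
    induction z using Antisymmetrization.ind with
    | _ Z => exact fun h1 h2 => D.cut Z.1 ((cls.2 Z.1).1 Z.2).2.1 h1 h2
  · exact lt_iff_le_not_ge.2 ⟨D.ac, D.nca⟩
  · exact D.cd
  · exact lt_iff_le_not_ge.2 ⟨D.db, D.nbd⟩
  · intro z
    induction z using Antisymmetrization.ind with
    | _ Z => exact fun h1 h2 => D.cut Z.1 ((cls.1 Z.1).1 Z.2).2 h1 h2

/-- The `∀∃`-sentence that fails in both partial orders. -/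
def Sentence (α : Type) [PartialOrder α] : Prop :=
  ∀ a c d b : α, a < c → c ≤ d → d < b → ∃ z, a ≤ z ∧ z ≤ b ∧ ¬ c ≤ z ∧ ¬ z ≤ d

theorem IsCut.not_sentence {α : Type} [PartialOrder α] {a c d b : α} (h : IsCut a c d b) :
    ¬ Sentence α := by
  intro hs
  obtain ⟨z, h1, h2, h3, h4⟩ := hs a c d b h.1 h.2.1 h.2.2.1
  rcases h.2.2.2 z h1 h2 with h | h
  · exact h3 h
  · exact h4 h

theorem not_sentence : ¬ Sentence PwCantor ∧ ¬ Sentence PwBaire := by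
  obtain ⟨A, C, D, B, h1, h2⟩ := result
  exact ⟨h1.not_sentence, h2.not_sentence⟩

end Pool.Agent.Results.MP_d48993_lc.CutInBothLattices
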