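import Pool.Agent.Lib.MP_d48993_lc.BAE.Rig.Final
import Pool.Agent.Lib.MP_d48993_lc.CodeQF

/-!
# The `∀∃`-theory of the Muchnik degrees of nonempty `Π⁰₁` classes of Baire space is decidable
-/

set_option autoImplicit false

open Pool.Agent.Lib.MP_d48993_lc

/-- The `∀∃`-theory of `𝒫_w(ω^ω)` is decidable: `QF.code` numbers the quantifier-free formulas,
and the set of all `(n, code of φ)` such that `∀ x₀ ... x_{n-1} ∃ y₀ y₁ ... φ` is true in
`𝒫_w(ω^ω)` is computable. -/
theorem Pool.Agent.Results.MP_d48993_lc.ForallExistsBaire.result :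
    Function.Bijective QF.code ∧
      ComputablePred fun p : ℕ × ℕ => ∃ φ : QF, φ.code = p.2 ∧ AETrue PwBaire p.1 φ :=
  ⟨CodeQF.code_bijective, CodeQF.pred_of_fun (fun n φ => AETrue PwBaire n φ) Ba.Asm.final⟩
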