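import Pool.Agent.Lib.MP_d48993_lc.H84.Interval
import Pool.Agent.Lib.MP_d48993_lc.Enum
import Pool.Agent.Lib.MP_d48993_lc.Res
import Pool.Agent.Lib.MP_d48993_lc.Search
import Pool.Agent.Lib.MP_d48993_lc.Red
import Pool.Agent.Lib.MP_d48993_lc.Pi2
import Pool.Agent.Lib.MP_d48993_lc.Ops
import Pool.Agent.Lib.MP_d48993_lc.H46.Emb

/-!
# Countable distributive lattices in the intervals of the Muchnik lattices

Every countable distributive lattice embeds, as a lattice, in every interval `[a, b]`, `a < b`, of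
the lattice of Muchnik degrees of nonempty `Π⁰₁` classes, in Cantor space and in Baire space.

Proof: helper84 (independent sequences of classes by a comparison of the ranks of trees, the
recursion theorem and the hiding lemma). Hiding lemma: helper67. Library: project CUT
(helper66 and others), effective calculus: helper39.
-/

set_option autoImplicit false

open Pool.Agent.Lib.MP_d48993_lc

theorem Pool.Agent.Results.MP_d48993_lc.IntervalEmbedding.result :
    (∀ a b : PwCantor, a < b → ∀ (L : Type) [DistribLattice L] [Countable L],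
      ∃ φ : L → PwCantor, (∀ x, a ≤ φ x ∧ φ x ≤ b) ∧ (∀ x y, φ x ≤ φ y ↔ x ≤ y) ∧
        (∀ x y, IsLUB {φ x, φ y} (φ (x ⊔ y))) ∧ ∀ x y, IsGLB {φ x, φ y} (φ (x ⊓ y))) ∧
    (∀ a b : PwBaire, a < b → ∀ (L : Type) [DistribLattice L] [Countable L],
      ∃ φ : L → PwBaire, (∀ x, a ≤ φ x ∧ φ x ≤ b) ∧ (∀ x y, φ x ≤ φ y ↔ x ≤ y) ∧
        (∀ x y, IsLUB {φ x, φ y} (φ (x ⊔ y))) ∧ ∀ x y, IsGLB {φ x, φ y} (φ (x ⊓ y))) :=
  H84.interval_of_statements enum (res (search red1 redMu) cls) joinS red1 (pi2 redMu joinS) cls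
    (ops joinS) (H46.emb red1 redMu cls)
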